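import Pool.Agent.Lib.MP_16285c_agN.KLV.Spec

/-!
# Degrees of compositions
-/

set_option autoImplicit false

namespace Pool.Agent.Lib.MP_16285c_agN

open Pool.Agent.Lib.MP_16285c_ag

variable {n : ℕ}

private theorem DgMul_deg {K : Type} [Field K] (F : Fin (n + 1) → Pl n K) (a b : ℕ)
    (hF : ∀ i, (F i).totalDegree ≤ a) (c : K) (m : Fin n → ℕ) (hm : ∑ i, m i ≤ b) :
    (MvPolynomial.C c * F 0 ^ (b - ∑ i, m i) * ∏ i : Fin n, F i.succ ^ m i).totalDegree ≤ a * b := by
  have hp : ∀ (i : Fin (n + 1)) (k : ℕ), (F i ^ k).totalDegree ≤ k * a := fun i k =>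
    (MvPolynomial.totalDegree_pow _ _).trans (Nat.mul_le_mul_left _ (hF i))
  obtain ⟨r, hr⟩ : ∃ r, b = r + ∑ i, m i := ⟨b - ∑ i, m i, by omega⟩
  have h1 : b - ∑ i, m i = r := by omega
  rw [h1, hr]
  have h2 : (∏ i : Fin n, F i.succ ^ m i).totalDegree ≤ ∑ i, m i * a :=
    (MvPolynomial.totalDegree_finsetProd _ _).trans (Finset.sum_le_sum fun i _ => hp _ _)
  calc (MvPolynomial.C c * F 0 ^ r * ∏ i : Fin n, F i.succ ^ m i).totalDegree
      ≤ (MvPolynomial.C c * F 0 ^ r).totalDegree + (∏ i : Fin n, F i.succ ^ m i).totalDegree :=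
        MvPolynomial.totalDegree_mul _ _
    _ ≤ (MvPolynomial.C (σ := Fin n) c).totalDegree + (F 0 ^ r).totalDegree +
        (∏ i : Fin n, F i.succ ^ m i).totalDegree := by
        gcongr
        exact MvPolynomial.totalDegree_mul _ _
    _ ≤ 0 + r * a + ∑ i, m i * a := by
        rw [MvPolynomial.totalDegree_C]
        gcongr
        exact hp 0 r
    _ = a * (r + ∑ i, m i) := by rw [← Finset.sum_mul]; ring

private theorem DgMul_monomial {K : Type} [Field K] (m : Fin n →₀ ℕ) (c : K) :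
    fr (MvPolynomial.monomial m c) =
      algebraMap K (RF n K) c * ∏ i, gen n K i ^ m i := by
  rw [MvPolynomial.monomial_eq, Finsupp.prod_fintype _ _ (fun _ => pow_zero _), fr_mul, fr_C]
  congr 1
  exact (map_prod (algebraMap (MvPolynomial (Fin n) K) (FractionRing (MvPolynomial (Fin n) K))) _
    _).trans (Finset.prod_congr rfl fun i _ => map_pow _ _ _)

private theorem DgMul_flat {K : Type} [Field K] (σ : RF n K →ₐ[K] RF n K)
    (F : Fin (n + 1) → Pl n K) (a b : ℕ)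
    (hF : Wk (fun i => σ (gen n K i)) F) (hd : ∀ i, (F i).totalDegree ≤ a) (H : Pl n K)
    (hH : H.totalDegree ≤ b) :
    ∃ H' : Pl n K, H'.totalDegree ≤ a * b ∧ fr H' = fr (F 0) ^ b * σ (fr H) := by
  have hs : ∀ m ∈ H.support, ∑ i, m i ≤ b := by
    intro m hm
    have h1 := MvPolynomial.le_totalDegree hm
    rw [Finsupp.sum_fintype _ _ (fun _ => rfl)] at h1
    exact h1.trans hH
  refine ⟨∑ m ∈ H.support, MvPolynomial.C (H.coeff m) * F 0 ^ (b - ∑ i, m i) *
    ∏ i : Fin n, F i.succ ^ m i, ?_, ?_⟩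
  · exact MvPolynomial.totalDegree_finsetSum_le fun m hm => DgMul_deg F a b hd _ _ (hs m hm)
  · have h1 : fr H = ∑ m ∈ H.support, fr (MvPolynomial.monomial m (H.coeff m)) := by
      conv_lhs => rw [← MvPolynomial.support_sum_monomial_coeff H]
      exact map_sum _ _ _
    have h2 : fr (∑ m ∈ H.support, MvPolynomial.C (H.coeff m) * F 0 ^ (b - ∑ i, m i) *
        ∏ i : Fin n, F i.succ ^ m i) = ∑ m ∈ H.support, fr (MvPolynomial.C (H.coeff m) *
        F 0 ^ (b - ∑ i, m i) * ∏ i : Fin n, F i.succ ^ m i) := map_sum _ _ _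
    rw [h1, h2, map_sum, Finset.mul_sum]
    refine Finset.sum_congr rfl fun m hm => ?_
    rw [DgMul_monomial, map_mul, map_prod, AlgHom.commutes]
    have e1 : fr (MvPolynomial.C (H.coeff m) * F 0 ^ (b - ∑ i, m i) * ∏ i : Fin n, F i.succ ^ m i) =
        algebraMap K (RF n K) (H.coeff m) * fr (F 0) ^ (b - ∑ i, m i) *
          ∏ i, (σ (gen n K i) * fr (F 0)) ^ m i := by
      rw [fr_mul, fr_mul, fr_C, fr_pow]
      congr 1
      refine (map_prod (algebraMap (MvPolynomial (Fin n) K)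
        (FractionRing (MvPolynomial (Fin n) K))) _ _).trans (Finset.prod_congr rfl fun i _ => ?_)
      rw [map_pow, ← hF.eq i]
    have e4 : fr (F 0) ^ b = fr (F 0) ^ (b - ∑ i, m i) * ∏ i, fr (F 0) ^ m i := by
      rw [Finset.prod_pow_eq_pow_sum, ← pow_add]
      congr 1
      have := hs m hm
      omega
    rw [e1, e4]
    have e5 : ∏ i, (σ (gen n K i) * fr (F 0)) ^ m i =
        (∏ i, σ (gen n K i ^ m i)) * ∏ i, fr (F 0) ^ m i := by
      rw [← Finset.prod_mul_distrib]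
      refine Finset.prod_congr rfl fun i _ => ?_
      rw [mul_pow, map_pow]
    rw [e5]
    ring

private theorem DgMul_mul (h : SRep) {K : Type} [Field K] (σ ρ : RF n K →ₐ[K] RF n K) :
    dg (fun i => (σ * ρ) (gen n K i)) ≤
      dg (fun i => σ (gen n K i)) * dg (fun i => ρ (gen n K i)) := by
  obtain ⟨F, hF, hFd, -⟩ := h.1 n K (fun i => σ (gen n K i))
  obtain ⟨G, hG, hGd, -⟩ := h.1 n K (fun i => ρ (gen n K i))
  choose G' hG'd hG' using fun i => DgMul_flat σ F _ _ hF.toWk hFd (G i) (hGd i)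
  refine h.2.1 n K _ G' _ ⟨?_, ?_⟩ hG'd
  · intro h0
    have h1 := hG' 0
    rw [h0] at h1
    have h2 : fr (0 : Pl n K) = 0 := map_zero _
    rw [h2] at h1
    have h3 : fr (F 0) ^ dg (fun i => ρ (gen n K i)) ≠ 0 := pow_ne_zero _ (fr_ne_zero hF.ne)
    have h4 : σ (fr (G 0)) ≠ 0 := by
      rw [Ne, map_eq_zero_iff σ σ.injective]
      exact fr_ne_zero hG.ne
    exact mul_ne_zero h3 h4 h1.symm
  · intro i
    have e1 : fr (G i.succ) = ρ (gen n K i) * fr (G 0) := hG.eq i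
    rw [hG', hG', e1, map_mul, AlgHom.mul_apply]
    ring

private theorem DgMul_map {K L : Type} [Field K] [Field L] [Algebra K L] (h : SRep)
    (σK : RF n K →ₐ[K] RF n K) (σL : RF n L →ₐ[L] RF n L) (hc : Cmp σK σL) (m : ℕ) :
    dg (it σL m) ≤ dg (it σK m) := by
  obtain ⟨F, hF, hFd, -⟩ := h.1 n K (it σK m)
  refine h.2.1 n L _ (fun i => MvPolynomial.map (algebraMap K L) (F i)) _ ⟨?_, ?_⟩ ?_
  · intro h0
    exact hF.ne ((MvPolynomial.map_injective _ (algebraMap K L).injective)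
      (h0.trans (map_zero _).symm))
  · intro i
    rw [← bc_fr, ← bc_fr, cmp_it hc, ← map_mul, hF.eq i]
  · intro i
    refine le_trans ?_ (hFd i)
    exact Finset.sup_mono (MvPolynomial.support_map_subset _ _)

theorem tDgMul (h : SRep) : SDgMul := by
  refine ⟨fun n K _ σ ρ => DgMul_mul h σ ρ, fun n K _ σ a b => ?_,
    fun n K L _ _ _ σK σL hc m => DgMul_map h σK σL hc m,
    fun n K _ σ F a b hF hd H hH => DgMul_flat σ F a b hF hd H hH⟩
  have h1 := DgMul_mul h (σ ^ a) (σ ^ b)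
  rw [← pow_add] at h1
  exact h1

end Pool.Agent.Lib.MP_16285c_agN
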