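import Pool.Agent.Lib.MP_16285c_agN.KLV.Spec

/-!
# Linear disjointness of `K(x,y)` and `L` over `K`
-/

set_option autoImplicit false

namespace Pool.Agent.Lib.MP_16285c_agN

open Pool.Agent.Lib.MP_16285c_ag

theorem tDisj : SDisj := by
  intro n K L _ _ _ r l hl c hc
  obtain ⟨b, hb⟩ := IsLocalization.exist_integer_multiples (nonZeroDivisors (MvPolynomial (Fin n) K))
    (Finset.univ : Finset (Fin r)) c
  have hb0 : (b : Pl n K) ≠ 0 := nonZeroDivisors.ne_zero b.2
  have hP : ∀ j, ∃ P : Pl n K, fr P = fr (b : Pl n K) * c j := by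
    intro j
    obtain ⟨P, hP⟩ := hb j (Finset.mem_univ j)
    refine ⟨P, ?_⟩
    rw [fr, hP, Algebra.smul_def]
  choose P hP using hP
  have h1 : ∑ j, MvPolynomial.C (l j) * MvPolynomial.map (algebraMap K L) (P j) = 0 := by
    apply fr_injective (n := n) (K := L)
    refine (map_sum (algebraMap (MvPolynomial (Fin n) L) (FractionRing (MvPolynomial (Fin n) L)))
      _ _).trans (Eq.trans ?_ (map_zero _).symm)
    have h2 : ∀ j, fr (MvPolynomial.C (l j) * MvPolynomial.map (algebraMap K L) (P j)) =
        bc n K L (fr (b : Pl n K)) * (algebraMap L (RF n L) (l j) * bc n K L (c j)) := by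
      intro j
      have h3 : fr (MvPolynomial.C (l j) * MvPolynomial.map (algebraMap K L) (P j)) =
          fr (MvPolynomial.C (l j)) * fr (MvPolynomial.map (algebraMap K L) (P j)) :=
        map_mul _ _ _
      rw [h3, fr_C, ← bc_fr, hP, map_mul]
      ring
    refine (Finset.sum_congr rfl fun j _ => h2 j).trans ?_
    rw [← Finset.mul_sum, hc, mul_zero]
  intro j
  have h4 : P j = 0 := by
    ext m
    have h5 : ∑ i, (P i).coeff m • l i = 0 := by
      have h6 := congrArg (MvPolynomial.coeff m) h1
      rw [MvPolynomial.coeff_sum, MvPolynomial.coeff_zero] at h6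
      rw [← h6]
      refine Finset.sum_congr rfl fun i _ => ?_
      rw [MvPolynomial.coeff_C_mul, MvPolynomial.coeff_map, Algebra.smul_def, mul_comm]
    rw [MvPolynomial.coeff_zero]
    exact Fintype.linearIndependent_iff.1 hl _ h5 j
  have h7 := hP j
  rw [h4] at h7
  replace h7 := (map_zero (algebraMap (MvPolynomial (Fin n) K) (FractionRing (MvPolynomial (Fin n) K)))).symm.trans h7
  exact (mul_eq_zero.1 h7.symm).resolve_left (fr_ne_zero hb0)

end Pool.Agent.Lib.MP_16285c_agN
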