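import Pool.Agent.Lib.MP_16285c_agN.KLV.Spec

/-!
# Coprime representatives; the degree is attained
-/

set_option autoImplicit false

namespace Pool.Agent.Lib.MP_16285c_agN

section

variable {n : ℕ} {K : Type} [Field K]

private theorem rep_mul (A B : Pl n K) : fr (A * B) = fr A * fr B := map_mul _ _ _

private theorem rep_gcd (F : Fin (n + 1) → Pl n K) (h0 : F 0 ≠ 0) :
    ∃ (c : Pl n K) (G : Fin (n + 1) → Pl n K), c ≠ 0 ∧ (∀ i, F i = c * G i) ∧
      ∀ d : Pl n K, (∀ i, d ∣ G i) → IsUnit d := by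
  classical
  obtain ⟨_⟩ : Nonempty (NormalizedGCDMonoid (Pl n K)) := by
    let _ : NormalizationMonoid (Pl n K) :=
      (UniqueFactorizationMonoid.strongNormalizationMonoid (α := Pl n K)).toNormalizationMonoid
    exact ⟨UniqueFactorizationMonoid.toNormalizedGCDMonoid (Pl n K)⟩
  have h : ∀ i, Finset.univ.gcd F ∣ F i := fun i => Finset.gcd_dvd (Finset.mem_univ i)
  choose G hG using h
  have hc : Finset.univ.gcd F ≠ 0 := by
    intro h
    have := hG 0
    rw [h, zero_mul] at this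
    exact h0 this
  refine ⟨_, G, hc, hG, fun d hd => ?_⟩
  have h1 : Finset.univ.gcd F * d ∣ Finset.univ.gcd F := by
    refine Finset.dvd_gcd fun i _ => ?_
    have h2 : Finset.univ.gcd F * d ∣ Finset.univ.gcd F * G i := mul_dvd_mul_left _ (hd i)
    rwa [← hG i] at h2
  have h3 : Finset.univ.gcd F * d ∣ Finset.univ.gcd F * 1 := by
    rw [mul_one]
    exact h1
  exact isUnit_of_dvd_one ((mul_dvd_mul_iff_left hc).1 h3)

/-- If the `F i` have no common factor and `a ∣ b * F i` for all `i` then `a ∣ b`. -/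
private theorem rep_dvd (F : Fin (n + 1) → Pl n K) (hF : ∀ d : Pl n K, (∀ i, d ∣ F i) → IsUnit d)
    (a b : Pl n K) (h : ∀ i, a ∣ b * F i) : a ∣ b := by
  obtain ⟨_⟩ : Nonempty (NormalizedGCDMonoid (Pl n K)) := by
    let _ : NormalizationMonoid (Pl n K) :=
      (UniqueFactorizationMonoid.strongNormalizationMonoid (α := Pl n K)).toNormalizationMonoid
    exact ⟨UniqueFactorizationMonoid.toNormalizedGCDMonoid (Pl n K)⟩
  have h1 : a ∣ Finset.univ.gcd (fun i => b * F i) := Finset.dvd_gcd fun i _ => h i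
  have h2 : IsUnit (Finset.univ.gcd F) := hF _ fun i => Finset.gcd_dvd (Finset.mem_univ i)
  exact (h2.dvd_mul_right).1 (h1.trans (Finset.gcd_mul_left' Finset.univ F b).dvd)

private theorem rep_deg {c G : Pl n K} (hc : c ≠ 0) : G.totalDegree ≤ (c * G).totalDegree := by
  by_cases h : G = 0
  · rw [h, mul_zero]
  · rw [MvPolynomial.totalDegree_mul_of_isDomain hc h]
    exact Nat.le_add_left _ _

private theorem rep_of_wk {g : Fin n → RF n K} {F : Fin (n + 1) → Pl n K} (h : Wk g F) :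
    ∃ G : Fin (n + 1) → Pl n K, Rep g G ∧ ∀ i, (G i).totalDegree ≤ (F i).totalDegree := by
  obtain ⟨c, G, hc, hG, hcop⟩ := rep_gcd F h.ne
  refine ⟨G, ⟨⟨?_, fun i => ?_⟩, hcop⟩, fun i => ?_⟩
  · intro h0
    exact h.ne (by rw [hG 0, h0, mul_zero])
  · have h1 := h.eq i
    rw [hG, hG 0] at h1
    have h2 : fr c * fr (G i.succ) = fr c * (g i * fr (G 0)) := by
      rw [rep_mul, rep_mul] at h1
      rw [h1]
      ring
    exact mul_left_cancel₀ (fr_ne_zero hc) h2
  · rw [hG i]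
    exact rep_deg hc

private theorem wk_exists (g : Fin n → RF n K) : ∃ F : Fin (n + 1) → Pl n K, Wk g F := by
  classical
  choose N D hD he using fun i => exists_fr (g i)
  refine ⟨Fin.cons (∏ j, D j) fun i => N i * ∏ j ∈ Finset.univ.erase i, D j, ?_, fun i => ?_⟩
  · rw [Fin.cons_zero]
    exact Finset.prod_ne_zero_iff.2 fun j _ => hD j
  · rw [Fin.cons_succ, Fin.cons_zero, ← Finset.mul_prod_erase _ _ (Finset.mem_univ i), rep_mul,
      rep_mul, he i]
    have h1 : fr (D i) ≠ 0 := fr_ne_zero (hD i)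
    field_simp

private theorem rep_uniq {g : Fin n → RF n K} {F F' : Fin (n + 1) → Pl n K} (h : Rep g F) (h' : Rep g F') :
    ∃ c : K, c ≠ 0 ∧ ∀ i, F' i = MvPolynomial.C c * F i := by
  have key : ∀ i, F' 0 * F i = F 0 * F' i := by
    intro i
    refine Fin.cases ?_ (fun j => ?_) i
    · exact mul_comm _ _
    · refine fr_injective ?_
      rw [rep_mul, rep_mul, h.eq j, h'.eq j]
      ring
  have d1 : F 0 ∣ F' 0 := rep_dvd F h.cop _ _ fun i => ⟨F' i, key i⟩
  have d2 : F' 0 ∣ F 0 := rep_dvd F' h'.cop _ _ fun i => ⟨F i, (key i).symm⟩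
  obtain ⟨u, hu⟩ := associated_of_dvd_dvd d1 d2
  obtain ⟨c, hc, hcu⟩ := MvPolynomial.isUnit_iff_eq_C_of_isReduced.1 u.isUnit
  refine ⟨c, hc.ne_zero, fun i => ?_⟩
  have h1 := key i
  rw [← hu, hcu] at h1
  refine mul_left_cancel₀ h.ne ?_
  rw [← h1]
  ring

private theorem rep_dg (g : Fin n → RF n K) : ∃ F : Fin (n + 1) → Pl n K, Rep g F ∧
    (∀ i, (F i).totalDegree ≤ dg g) ∧ ∃ i, (F i).totalDegree = dg g := by
  have hne : {D : ℕ | ∃ F : Fin (n + 1) → Pl n K, Rep g F ∧ ∀ i, (F i).totalDegree ≤ D}.Nonempty := by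
    obtain ⟨F, hF⟩ := wk_exists g
    obtain ⟨G, hG, -⟩ := rep_of_wk hF
    exact ⟨∑ i, (G i).totalDegree, G, hG, fun i =>
      Finset.single_le_sum (f := fun i => (G i).totalDegree) (fun _ _ => Nat.zero_le _)
        (Finset.mem_univ i)⟩
  obtain ⟨F, hF, hd⟩ := Nat.sInf_mem hne
  refine ⟨F, hF, hd, ?_⟩
  by_contra hc
  push Not at hc
  have h1 : ∀ i, (F i).totalDegree < dg g := fun i => lt_of_le_of_ne (hd i) (hc i)
  have h2 : dg g ≤ dg g - 1 := Nat.sInf_le ⟨F, hF, fun i => Nat.le_sub_one_of_lt (h1 i)⟩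
  have h3 := h1 0
  omega

end

theorem tRep : SRep := by
  refine ⟨fun n K _ g => rep_dg g, fun n K _ g F D hF hD => ?_,
    fun n K _ g F F' h h' => rep_uniq h h', fun n K _ g F h => ?_⟩
  · obtain ⟨G, hG, hd⟩ := rep_of_wk hF
    exact Nat.sInf_le ⟨G, hG, fun i => (hd i).trans (hD i)⟩
  · obtain ⟨F', h', h1, i, hi⟩ := rep_dg g
    obtain ⟨c, hc, hF⟩ := rep_uniq h' h
    have hc' : (MvPolynomial.C c : Pl n K) ≠ 0 := by
      rw [Ne, MvPolynomial.C_eq_zero]
      exact hc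
    have hd : ∀ j, (F j).totalDegree = (F' j).totalDegree := by
      intro j
      rw [hF j]
      by_cases h0 : F' j = 0
      · rw [h0, mul_zero]
      · rw [MvPolynomial.totalDegree_mul_of_isDomain hc' h0, MvPolynomial.totalDegree_C, zero_add]
    exact ⟨fun j => (hd j).le.trans (h1 j), i, (hd i).trans hi⟩

end Pool.Agent.Lib.MP_16285c_agN
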