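import Pool.Agent.Lib.MP_16285c_agN.KLV.Spec

/-!
# KLV, TpGe: the topological degree over a field of definition
-/

set_option autoImplicit false

namespace Pool.Agent.Lib.MP_16285c_agN

open Pool.Agent.Lib.MP_16285c_ag

theorem tTpGe (h : STpLe) : STpGe := by
  classical
  intro n L _ σL hfin
  have hfree : Module.Free σL.fieldRange (RF n L) := Module.Free.of_divisionRing _ _
  set q := Module.finrank σL.fieldRange (RF n L) with hq
  let b : Module.Basis (Fin q) σL.fieldRange (RF n L) := Module.finBasis _ _
  have hex : ∀ i, ∃ N D : Pl n L, D ≠ 0 ∧ b i = fr N / fr D := fun i => exists_fr (b i)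
  choose A B hB hb using hex
  refine ⟨Finset.univ.biUnion fun i => (A i).coeffs ∪ (B i).coeffs, ?_⟩
  intro K _ _ σK hS hc
  have hmem : ∀ G : Pl n L, (∀ s ∈ G.coeffs, s ∈ Set.range (algebraMap K L)) →
      ∃ G' : Pl n K, MvPolynomial.map (algebraMap K L) G' = G := by
    intro G hG
    have := (MvPolynomial.mem_range_map_iff_coeffs_subset (f := algebraMap K L) (x := G)).2
      (fun s hs => hG s hs)
    exact this
  have hA : ∀ i, ∃ G' : Pl n K, MvPolynomial.map (algebraMap K L) G' = A i := fun i =>
    hmem _ fun s hs => hS s (Finset.mem_biUnion.2 ⟨i, Finset.mem_univ i,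
      Finset.mem_union_left _ hs⟩)
  have hB' : ∀ i, ∃ G' : Pl n K, MvPolynomial.map (algebraMap K L) G' = B i := fun i =>
    hmem _ fun s hs => hS s (Finset.mem_biUnion.2 ⟨i, Finset.mem_univ i,
      Finset.mem_union_right _ hs⟩)
  choose A' hA' using hA
  choose B' hB'' using hB'
  obtain ⟨hfK, hle⟩ := h n K L σK σL hc hfin
  refine ⟨hfK, le_antisymm hle ?_⟩
  let w : Fin q → RF n K := fun i => fr (A' i) / fr (B' i)
  have hw : ∀ i, bc n K L (w i) = b i := by
    intro i
    show bc n K L (fr (A' i) / fr (B' i)) = b i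
    rw [map_div₀, bc_fr, bc_fr, hA', hB'', hb]
  have hli : LinearIndependent σK.fieldRange w := by
    rw [Fintype.linearIndependent_iff]
    intro c hcs i
    have hce : ∀ i, ∃ e : RF n K, σK e = (c i : RF n K) := fun i => (c i).2
    choose e he using hce
    have h1 : ∑ i, (⟨σL (bc n K L (e i)), ⟨_, rfl⟩⟩ : σL.fieldRange) • b i = 0 := by
      have h2 : bc n K L (∑ i, c i • w i) = 0 := by rw [hcs, map_zero]
      rw [map_sum] at h2
      rw [← h2]
      refine Finset.sum_congr rfl fun j _ => ?_
      show σL (bc n K L (e j)) * b j = bc n K L ((c j : RF n K) * w j)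
      rw [map_mul, hw, ← he, cmp_apply hc]
    have h3 := Fintype.linearIndependent_iff.1 b.linearIndependent _ h1 i
    have h4 : σL (bc n K L (e i)) = 0 := congrArg Subtype.val h3
    have h5 : e i = 0 := by
      have h6 : bc n K L (e i) = 0 := (map_eq_zero σL).1 h4
      exact (map_eq_zero (bc n K L)).1 h6
    apply Subtype.ext
    rw [← he, h5, map_zero]
    rfl
  have h7 := hli.fintype_card_le_finrank
  rw [Fintype.card_fin] at h7
  exact h7

end Pool.Agent.Lib.MP_16285c_agN
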