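import Pool.Agent.Lib.MP_16285c_agN.KLV.Spec

/-!
# Package KLV: the topological degree over a smaller field (K1)
-/

set_option autoImplicit false

namespace Pool.Agent.Lib.MP_16285c_agN

section

variable {n : ℕ} {K L : Type} [Field K] [Field L] [Algebra K L]

variable (K) in
/-- Finitely many polynomials over `L` are combinations of polynomials over `K` with coefficients which are linearly
independent over `K`. -/
theorem tpLe_decomp {q : ℕ} (A : Fin q → Pl n L) :
    ∃ (r : ℕ) (l : Fin r → L) (P : Fin q → Fin r → Pl n K), LinearIndependent K l ∧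
      ∀ i, A i = ∑ j, MvPolynomial.C (l j) * MvPolynomial.map (algebraMap K L) (P i j) := by
  classical
  set S : Finset L := Finset.univ.biUnion fun i => (A i).support.image fun m => (A i).coeff m with hS
  set V : Submodule K L := Submodule.span K (S : Set L) with hV
  have hVf : Module.Finite K V := FiniteDimensional.span_finset K S
  let b := Module.finBasis K V
  have hmem : ∀ i m, m ∈ (A i).support → (A i).coeff m ∈ V := by
    intro i m hm
    apply Submodule.subset_span
    rw [hS, Finset.mem_coe, Finset.mem_biUnion]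
    exact ⟨i, Finset.mem_univ _, Finset.mem_image_of_mem _ hm⟩
  refine ⟨_, fun j => ((b j : V) : L), fun i j => ∑ m ∈ (A i).support,
    MvPolynomial.monomial m (if h : (A i).coeff m ∈ V then b.repr ⟨_, h⟩ j else 0), ?_, ?_⟩
  · exact b.linearIndependent.map' V.subtype (Submodule.ker_subtype V)
  · intro i
    have h1 : ∀ j, MvPolynomial.C ((b j : V) : L) * MvPolynomial.map (algebraMap K L)
        (∑ m ∈ (A i).support,
          MvPolynomial.monomial m (if h : (A i).coeff m ∈ V then b.repr ⟨_, h⟩ j else 0)) =
        ∑ m ∈ (A i).support, MvPolynomial.monomial m (((b j : V) : L) *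
          algebraMap K L (if h : (A i).coeff m ∈ V then b.repr ⟨_, h⟩ j else 0)) := by
      intro j
      rw [map_sum, Finset.mul_sum]
      refine Finset.sum_congr rfl fun m _ => ?_
      rw [MvPolynomial.map_monomial, MvPolynomial.C_mul_monomial]
    rw [Finset.sum_congr rfl fun j _ => h1 j, Finset.sum_comm]
    conv_lhs => rw [(A i).as_sum]
    refine Finset.sum_congr rfl fun m hm => ?_
    rw [← map_sum]
    congr 1
    have h2 := b.sum_repr ⟨(A i).coeff m, hmem i m hm⟩
    have h3 := congrArg (Subtype.val) h2
    rw [Submodule.coe_sum] at h3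
    refine h3.symm.trans ?_
    refine Finset.sum_congr rfl fun j _ => ?_
    rw [dif_pos (hmem i m hm), Submodule.coe_smul, Algebra.smul_def, mul_comm]

theorem tpLe_key (hD : SDisj) {σK : RF n K →ₐ[K] RF n K} {σL : RF n L →ₐ[L] RF n L} (hc : Cmp σK σL) {q : ℕ}
    (w : Fin q → RF n K) (hw : ∀ c : Fin q → RF n K, ∑ i, σK (c i) * w i = 0 → ∀ i, c i = 0)
    (c : Fin q → RF n L) (h0 : ∑ i, σL (c i) * bc n K L (w i) = 0) : ∀ i, c i = 0 := by
  classical
  obtain ⟨D, hDm⟩ := IsLocalization.exist_integer_multiples_of_finite
    (nonZeroDivisors (MvPolynomial (Fin n) L)) c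
  choose A hA using hDm
  have hD0 : (D : Pl n L) ≠ 0 := nonZeroDivisors.ne_zero D.2
  have hA' : ∀ i, fr (A i) = fr (D : Pl n L) * c i := by
    intro i
    have h := hA i
    rw [Algebra.smul_def] at h
    exact h
  have h1 : ∑ i, σL (fr (A i)) * bc n K L (w i) = 0 := by
    have h2 : ∀ i, σL (fr (A i)) * bc n K L (w i) = σL (fr (D : Pl n L)) * (σL (c i) * bc n K L (w i)) := by
      intro i
      rw [hA' i, map_mul, mul_assoc]
    rw [Finset.sum_congr rfl fun i _ => h2 i, ← Finset.mul_sum, h0, mul_zero]
  obtain ⟨r, l, P, hl, hP⟩ := tpLe_decomp K A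
  have h3 : ∑ j, algebraMap L (RF n L) (l j) * bc n K L (∑ i, σK (fr (P i j)) * w i) = 0 := by
    rw [← h1]
    have h4 : ∀ i, σL (fr (A i)) * bc n K L (w i) =
        ∑ j, algebraMap L (RF n L) (l j) * bc n K L (σK (fr (P i j)) * w i) := by
      intro i
      rw [hP i, fr, map_sum, map_sum, Finset.sum_mul]
      refine Finset.sum_congr rfl fun j _ => ?_
      rw [map_mul, map_mul]
      have h5 : algebraMap (MvPolynomial (Fin n) L) (FractionRing (MvPolynomial (Fin n) L))
          (MvPolynomial.C (l j)) = algebraMap L (RF n L) (l j) := fr_C (l j)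
      have h6 : algebraMap (MvPolynomial (Fin n) L) (FractionRing (MvPolynomial (Fin n) L))
          (MvPolynomial.map (algebraMap K L) (P i j)) = bc n K L (fr (P i j)) := (bc_fr (P i j)).symm
      rw [h5, h6, AlgHom.commutes, cmp_apply hc, map_mul, mul_assoc]
    rw [Finset.sum_congr rfl fun i _ => h4 i, Finset.sum_comm]
    refine Finset.sum_congr rfl fun j _ => ?_
    rw [map_sum, Finset.mul_sum]
  have h7 := hD n K L r l hl _ h3
  have h8 : ∀ i j, P i j = 0 := by
    intro i j
    have h9 := hw (fun i => fr (P i j)) (h7 j) i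
    exact fr_injective (h9.trans (map_zero _).symm)
  intro i
  have h9 : A i = 0 := by
    rw [hP i]
    refine Finset.sum_eq_zero fun j _ => ?_
    rw [h8 i j, map_zero, mul_zero]
  have h10 := hA' i
  rw [h9, fr, map_zero] at h10
  exact (mul_eq_zero.1 h10.symm).resolve_left (fr_ne_zero hD0)

end

theorem tTpLe (hD : SDisj) : STpLe := by
  classical
  intro n K L _ _ _ σK σL hc hfin
  have hb : ∀ s : Finset (RF n K), (LinearIndependent σK.fieldRange fun i : s => (i : RF n K)) →
      s.card ≤ tp σL := by
    intro s hs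
    let e : Fin s.card ≃ s := s.equivFin.symm
    let w : Fin s.card → RF n K := fun i => (e i : RF n K)
    have hwi : LinearIndependent σK.fieldRange w := hs.comp e e.injective
    have hw : ∀ c : Fin s.card → RF n K, ∑ i, σK (c i) * w i = 0 → ∀ i, c i = 0 := by
      intro c h0 i
      have h1 := Fintype.linearIndependent_iff.1 hwi
        (fun i => (⟨σK (c i), ⟨c i, rfl⟩⟩ : σK.fieldRange)) h0 i
      exact σK.injective ((congrArg Subtype.val h1).trans (map_zero σK).symm)
    have hL : LinearIndependent σL.fieldRange (fun i => bc n K L (w i)) := by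
      rw [Fintype.linearIndependent_iff]
      intro g hg
      have h2 : ∀ i, ∃ c : RF n L, σL c = (g i : RF n L) := fun i => (g i).2
      choose c hcg using h2
      have h3 := tpLe_key hD hc w hw c (by
        rw [← hg]
        refine Finset.sum_congr rfl fun i _ => ?_
        rw [hcg i]
        rfl)
      intro i
      apply Subtype.ext
      rw [← hcg i, h3 i, map_zero]
      rfl
    have h4 := hL.fintype_card_le_finrank
    rwa [Fintype.card_fin] at h4
  have hr := rank_le hb
  refine ⟨?_, Module.finrank_le_of_rank_le hr⟩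
  rw [← Module.rank_lt_aleph0_iff]
  exact lt_of_le_of_lt hr Cardinal.natCast_lt_aleph0

end Pool.Agent.Lib.MP_16285c_agN
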