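import Pool.Agent.Lib.MP_16285c_agN.KLV.Desc
import Pool.Agent.Lib.MP_16285c_agN.KLV.DgMul
import Pool.Agent.Lib.MP_16285c_agN.KLV.Disj
import Pool.Agent.Lib.MP_16285c_agN.KLV.NoIPow
import Pool.Agent.Lib.MP_16285c_agN.KLV.Rep
import Pool.Agent.Lib.MP_16285c_agN.KLV.TpGe
import Pool.Agent.Lib.MP_16285c_agN.KLV.TpLe
import Pool.Agent.Lib.MP_16285c_agN.KLV.TpPow
import Pool.Agent.Lib.MP_16285c_agN.KLV.Val

/-!
# Package KLV in dimension `n`: closed forms
-/

set_option autoImplicit false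

namespace Pool.Agent.Lib.MP_16285c_agN

open Pool.Agent.Lib.MP_16285c_ag

theorem cTpLe : STpLe := tTpLe tDisj

theorem cTpGe : STpGe := tTpGe cTpLe

theorem cDgMul : SDgMul := tDgMul tRep

end Pool.Agent.Lib.MP_16285c_agN
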