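import Pool.Agent.Lib.MP_16285c_agN.KLV.Spec

/-!
# KLV, Desc: descent
-/

set_option autoImplicit false

namespace Pool.Agent.Lib.MP_16285c_agN

open Pool.Agent.Lib.MP_16285c_ag

private theorem Desc_map_ne {n : ℕ} {K L : Type} [Field K] [Field L] [Algebra K L] {G : Pl n K} (h : G ≠ 0) :
    MvPolynomial.map (algebraMap K L) G ≠ 0 := by
  intro h0
  exact h (MvPolynomial.map_injective _ (algebraMap K L).injective (h0.trans (map_zero _).symm))

theorem tDesc : SDesc := by
  refine ⟨?_, ?_, ?_, ?_⟩
  · intro n K L _ _ _ f σL hf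
    have hden : ∀ i, f.den i ≠ 0 := by
      intro i h0
      apply (hf i).1
      show MvPolynomial.map (algebraMap K L) (f.den i) = 0
      rw [h0, map_zero]
    have hval : ∀ i, bc n K L (fr (f.num i) / fr (f.den i)) = σL (gen n L i) := by
      intro i
      have h1 : fr (MvPolynomial.map (algebraMap K L) (f.den i)) ≠ 0 := fr_ne_zero (hf i).1
      rw [map_div₀, bc_fr, bc_fr, div_eq_iff h1]
      exact (hf i).2.symm
    set φ : Pl n K →ₐ[K] RF n K := MvPolynomial.aeval (fun i => fr (f.num i) / fr (f.den i)) with hφ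
    have hcomp : (bc n K L).comp (φ : Pl n K →+* RF n K) =
        ((σL : RF n L →+* RF n L).comp (algebraMap (MvPolynomial (Fin n) L)
          (FractionRing (MvPolynomial (Fin n) L)))).comp (MvPolynomial.map (algebraMap K L)) := by
      apply MvPolynomial.ringHom_ext
      · intro c
        change bc n K L (φ (MvPolynomial.C c)) = σL (fr (MvPolynomial.map (algebraMap K L)
          (MvPolynomial.C c)))
        rw [MvPolynomial.map_C, fr_C, AlgHom.commutes]
        have : φ (MvPolynomial.C c) = algebraMap K (RF n K) c := by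
          rw [hφ, MvPolynomial.aeval_C]
        rw [this, bc_algebraMap]
      · intro i
        change bc n K L (φ (MvPolynomial.X i)) = σL (fr (MvPolynomial.map (algebraMap K L)
          (MvPolynomial.X i)))
        rw [MvPolynomial.map_X, hφ, MvPolynomial.aeval_X]
        exact hval i
    have hinj : Function.Injective φ := by
      rw [injective_iff_map_eq_zero]
      intro A hA
      have h1 : bc n K L (φ A) = σL (fr (MvPolynomial.map (algebraMap K L) A)) :=
        congrArg (fun u : Pl n K →+* RF n L => u A) hcomp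
      rw [hA, map_zero] at h1
      have h2 : fr (MvPolynomial.map (algebraMap K L) A) = 0 :=
        (map_eq_zero σL).1 h1.symm
      by_contra hne
      exact fr_ne_zero (Desc_map_ne hne) h2
    refine ⟨IsFractionRing.liftAlgHom hinj, ?_, ?_⟩
    · intro i
      refine ⟨hden i, ?_⟩
      have h1 : (IsFractionRing.liftAlgHom hinj : RF n K →ₐ[K] RF n K) (gen n K i) =
          fr (f.num i) / fr (f.den i) := by
        have h2 : (IsFractionRing.liftAlgHom hinj : RF n K →ₐ[K] RF n K) (gen n K i) =
            φ (MvPolynomial.X i) := IsFractionRing.lift_algebraMap hinj _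
        rw [h2, hφ, MvPolynomial.aeval_X]
      rw [h1, div_mul_cancel₀ _ (fr_ne_zero (hden i))]
    · intro i
      have h2 : (IsFractionRing.liftAlgHom hinj : RF n K →ₐ[K] RF n K) (gen n K i) =
          φ (MvPolynomial.X i) := IsFractionRing.lift_algebraMap hinj _
      rw [h2, hφ, MvPolynomial.aeval_X, hval]
  · intro n K L _ _ _ σK σL hc hL g hg
    obtain ⟨c, hcg⟩ := hL (bc n K L g) (by rw [cmp_apply hc, hg])
    obtain ⟨N, D, hD, rfl⟩ := exists_fr g
    have hmD : fr (MvPolynomial.map (algebraMap K L) D) ≠ 0 := fr_ne_zero (Desc_map_ne hD)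
    have h1 : MvPolynomial.map (algebraMap K L) N =
        MvPolynomial.C c * MvPolynomial.map (algebraMap K L) D := by
      apply fr_injective
      rw [map_div₀, bc_fr, bc_fr, div_eq_iff hmD, ← fr_C] at hcg
      rw [hcg, fr, fr, fr, map_mul]
    obtain ⟨m, hm⟩ := MvPolynomial.ne_zero_iff.1 hD
    have h2 : algebraMap K L (N.coeff m) = c * algebraMap K L (D.coeff m) := by
      have h3 := congrArg (MvPolynomial.coeff m) h1
      rwa [MvPolynomial.coeff_C_mul, MvPolynomial.coeff_map, MvPolynomial.coeff_map] at h3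
    have h4 : c = algebraMap K L (N.coeff m / D.coeff m) := by
      rw [map_div₀, eq_div_iff, h2]
      intro h0
      exact hm ((algebraMap K L).injective (h0.trans (map_zero _).symm))
    refine ⟨N.coeff m / D.coeff m, ?_⟩
    rw [div_eq_iff (fr_ne_zero hD), ← fr_C, fr, fr, fr, ← map_mul]
    congr 1
    apply MvPolynomial.map_injective _ (algebraMap K L).injective
    rw [h1, map_mul, MvPolynomial.map_C, h4]
  · intro n K L _ _ _ f
    exact Pool.Agent.ZDO.map_Jc f (algebraMap K L)
  · intro n K L _ _ _ g F hF
    refine ⟨Desc_map_ne hF.ne, fun i => ?_⟩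
    rw [← bc_fr, hF.eq, map_mul, bc_fr]

end Pool.Agent.Lib.MP_16285c_agN
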