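import Pool.Agent.Lib.MP_16285c_agN.Defs

/-!
# Change of the field of definition, powers, representatives, values in dimension `n`: statements (package KLV)

The same as `MP_16285c_agZ/KLV/Spec.lean` with `Fin n` in place of `Fin 2`; in `SVal` the last statement holds without
`E(x) ≠ 0`.

Notation: see `Defs.lean` (please read it first). `bc n K L : RF n K →+* RF n L` is the base change (`bc_fr`, `bc_injective`,
`bc_gen`, `bc_algebraMap` are proved here). `Cmp σK σL`: `σL` is the base change of `σK` (`cmp_apply`: `σL (bc g) = bc (σK g)`).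

Every lemma is a `Prop`; the files proving them are independent: used statements are hypotheses.
-/

set_option autoImplicit false

namespace Pool.Agent.Lib.MP_16285c_agN

open Pool.Agent.Lib.MP_16285c_ag

section bc

variable {n : ℕ} {K L : Type} [Field K] [Field L] [Algebra K L]

theorem fr_injective : Function.Injective (fr (n := n) (K := K)) :=
  IsFractionRing.injective (MvPolynomial (Fin n) K) (FractionRing (MvPolynomial (Fin n) K))

theorem fr_ne_zero {G : Pl n K} (h : G ≠ 0) : fr G ≠ 0 := by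
  intro h0
  exact h (fr_injective (h0.trans (map_zero _).symm))

theorem fr_eq_zero {G : Pl n K} : fr G = 0 ↔ G = 0 := by
  constructor
  · intro h
    by_contra h0
    exact fr_ne_zero h0 h
  · intro h
    rw [h]
    exact map_zero _

theorem fr_mul (A B : Pl n K) : fr (A * B) = fr A * fr B := map_mul _ _ _

theorem fr_add (A B : Pl n K) : fr (A + B) = fr A + fr B := map_add _ _ _

theorem fr_one : fr (1 : Pl n K) = 1 := map_one _

theorem fr_pow (A : Pl n K) (m : ℕ) : fr (A ^ m) = fr A ^ m := map_pow _ _ _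

theorem exists_fr (g : RF n K) : ∃ N D : Pl n K, D ≠ 0 ∧ g = fr N / fr D := by
  obtain ⟨N, D, hD, h⟩ := IsFractionRing.div_surjective (A := MvPolynomial (Fin n) K) g
  exact ⟨N, D, nonZeroDivisors.ne_zero hD, h.symm⟩

theorem fr_C (c : K) : fr (MvPolynomial.C c : Pl n K) = algebraMap K (RF n K) c := by
  rw [IsScalarTower.algebraMap_apply K (MvPolynomial (Fin n) K) (RF n K)]
  rfl

/-- Two algebra homomorphisms on `RF n K` which agree on the variables are equal. -/
theorem hom_ext {A : Type} [Field A] (u v : RF n K →+* A)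
    (hK : ∀ c : K, u (algebraMap K (RF n K) c) = v (algebraMap K (RF n K) c))
    (hg : ∀ i, u (gen n K i) = v (gen n K i)) : u = v := by
  apply IsFractionRing.injective_comp_algebraMap (A := MvPolynomial (Fin n) K)
  change u.comp _ = v.comp _
  apply MvPolynomial.ringHom_ext
  · intro c
    change u (fr (MvPolynomial.C c)) = v (fr (MvPolynomial.C c))
    rw [fr_C]
    exact hK c
  · exact hg

variable (n K L) in
theorem bc_aux : Function.Injective ((algebraMap (MvPolynomial (Fin n) L)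
    (FractionRing (MvPolynomial (Fin n) L))).comp (MvPolynomial.map (algebraMap K L))) :=
  (fr_injective (n := n) (K := L)).comp (MvPolynomial.map_injective _ (algebraMap K L).injective)

variable (n K L) in
/-- The base change `K(x_0, …) → L(x_0, …)`. -/
noncomputable def bc : RF n K →+* RF n L := IsFractionRing.lift (bc_aux n K L)

theorem bc_fr (G : Pl n K) : bc n K L (fr G) = fr (MvPolynomial.map (algebraMap K L) G) :=
  IsFractionRing.lift_algebraMap (bc_aux n K L) G

theorem bc_injective : Function.Injective (bc n K L) := (bc n K L).injective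

theorem bc_gen (i : Fin n) : bc n K L (gen n K i) = gen n L i := by
  rw [gen, bc_fr, MvPolynomial.map_X, gen]

theorem bc_algebraMap (c : K) :
    bc n K L (algebraMap K (RF n K) c) = algebraMap L (RF n L) (algebraMap K L c) := by
  rw [← fr_C, bc_fr, MvPolynomial.map_C, fr_C]

/-- `σL` is the base change of `σK`. -/
def Cmp (σK : RF n K →ₐ[K] RF n K) (σL : RF n L →ₐ[L] RF n L) : Prop :=
  ∀ i, σL (gen n L i) = bc n K L (σK (gen n K i))

theorem cmp_apply {σK : RF n K →ₐ[K] RF n K} {σL : RF n L →ₐ[L] RF n L} (h : Cmp σK σL)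
    (g : RF n K) : σL (bc n K L g) = bc n K L (σK g) := by
  have : (σL : RF n L →+* RF n L).comp (bc n K L) =
      (bc n K L).comp (σK : RF n K →+* RF n K) := by
    apply hom_ext
    · intro c
      change σL (bc n K L (algebraMap K (RF n K) c)) = bc n K L (σK (algebraMap K (RF n K) c))
      rw [bc_algebraMap, AlgHom.commutes, AlgHom.commutes, bc_algebraMap]
    · intro i
      change σL (bc n K L (gen n K i)) = bc n K L (σK (gen n K i))
      rw [bc_gen, h]
  exact congrArg (fun u : RF n K →+* RF n L => u g) this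

theorem cmp_pow {σK : RF n K →ₐ[K] RF n K} {σL : RF n L →ₐ[L] RF n L} (h : Cmp σK σL) (m : ℕ) :
    Cmp (σK ^ m) (σL ^ m) := by
  induction m with
  | zero =>
    intro i
    rw [pow_zero, pow_zero, AlgHom.one_apply, AlgHom.one_apply, bc_gen]
  | succ m ih =>
    intro i
    rw [pow_succ', pow_succ', AlgHom.mul_apply, AlgHom.mul_apply, ih i, cmp_apply h]

theorem cmp_it {σK : RF n K →ₐ[K] RF n K} {σL : RF n L →ₐ[L] RF n L} (h : Cmp σK σL) (m : ℕ)
    (i : Fin n) : it σL m i = bc n K L (it σK m i) :=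
  cmp_pow h m i

end bc

/-! ## Change of fields -/

/-- (K0) Linear disjointness. -/
def SDisj : Prop :=
  ∀ (n : ℕ) (K L : Type) [Field K] [Field L] [Algebra K L] (r : ℕ) (l : Fin r → L),
    LinearIndependent K l → ∀ c : Fin r → RF n K,
    ∑ j, algebraMap L (RF n L) (l j) * bc n K L (c j) = 0 → ∀ j, c j = 0

/-- (K1) Degrees over smaller fields. -/
def STpLe : Prop :=
  ∀ (n : ℕ) (K L : Type) [Field K] [Field L] [Algebra K L] (σK : RF n K →ₐ[K] RF n K)
    (σL : RF n L →ₐ[L] RF n L), Cmp σK σL → Module.Finite σL.fieldRange (RF n L) →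
    Module.Finite σK.fieldRange (RF n K) ∧ tp σK ≤ tp σL

/-- (K2) The degree over a field of definition of a basis. -/
def STpGe : Prop :=
  ∀ (n : ℕ) (L : Type) [Field L] (σL : RF n L →ₐ[L] RF n L),
    Module.Finite σL.fieldRange (RF n L) →
    ∃ S : Finset L, ∀ (K : Type) [Field K] [Algebra K L] (σK : RF n K →ₐ[K] RF n K),
      (∀ s ∈ S, s ∈ Set.range (algebraMap K L)) → Cmp σK σL →
      Module.Finite σK.fieldRange (RF n K) ∧ tp σK = tp σL

/-- (K3) Descent. -/
def SDesc : Prop :=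
  (∀ (n : ℕ) (K L : Type) [Field K] [Field L] [Algebra K L] (f : RM K n)
    (σL : RF n L →ₐ[L] RF n L),
    Of (f.map (algebraMap K L)) σL → ∃ σK : RF n K →ₐ[K] RF n K, Of f σK ∧ Cmp σK σL) ∧
  (∀ (n : ℕ) (K L : Type) [Field K] [Field L] [Algebra K L] (σK : RF n K →ₐ[K] RF n K)
    (σL : RF n L →ₐ[L] RF n L), Cmp σK σL → NoI σL → NoI σK) ∧
  (∀ (n : ℕ) (K L : Type) [Field K] [Field L] [Algebra K L] (f : RM K n),
    jac (f.map (algebraMap K L)) = MvPolynomial.map (algebraMap K L) (jac f)) ∧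
  (∀ (n : ℕ) (K L : Type) [Field K] [Field L] [Algebra K L] (g : Fin n → RF n K)
    (F : Fin (n + 1) → Pl n K), Wk g F →
    Wk (fun i => bc n K L (g i)) (fun i => MvPolynomial.map (algebraMap K L) (F i)))

/-! ## Powers -/

/-- (K4) No invariants for the powers. -/
def SNoIPow : Prop :=
  ∀ (n : ℕ) (K : Type) [Field K] (σ : RF n K →ₐ[K] RF n K) (M : ℕ), 1 ≤ M → NoI σ → NoI (σ ^ M)

/-- (K5) The topological degree of compositions. -/
def STpPow : Prop :=
  (∀ (n : ℕ) (K : Type) [Field K] (σ ρ : RF n K →ₐ[K] RF n K), tp (σ * ρ) = tp σ * tp ρ) ∧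
  (∀ (n : ℕ) (K : Type) [Field K] (σ : RF n K →ₐ[K] RF n K) (m : ℕ), tp (σ ^ m) = tp σ ^ m) ∧
  (∀ (n : ℕ) (K : Type) [Field K] (σ : RF n K →ₐ[K] RF n K),
    1 ≤ tp σ ↔ Module.Finite σ.fieldRange (RF n K))

/-! ## Representatives -/

/-- (K6) Coprime representatives; the degree is attained. -/
def SRep : Prop :=
  (∀ (n : ℕ) (K : Type) [Field K] (g : Fin n → RF n K), ∃ F : Fin (n + 1) → Pl n K, Rep g F ∧
    (∀ i, (F i).totalDegree ≤ dg g) ∧ ∃ i, (F i).totalDegree = dg g) ∧
  (∀ (n : ℕ) (K : Type) [Field K] (g : Fin n → RF n K) (F : Fin (n + 1) → Pl n K) (D : ℕ),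
    Wk g F → (∀ i, (F i).totalDegree ≤ D) → dg g ≤ D) ∧
  (∀ (n : ℕ) (K : Type) [Field K] (g : Fin n → RF n K) (F F' : Fin (n + 1) → Pl n K),
    Rep g F → Rep g F' → ∃ c : K, c ≠ 0 ∧ ∀ i, F' i = MvPolynomial.C c * F i) ∧
  (∀ (n : ℕ) (K : Type) [Field K] (g : Fin n → RF n K) (F : Fin (n + 1) → Pl n K), Rep g F →
    (∀ i, (F i).totalDegree ≤ dg g) ∧ ∃ i, (F i).totalDegree = dg g)

/-- (K7) Degrees of compositions. -/
def SDgMul : Prop :=
  (∀ (n : ℕ) (K : Type) [Field K] (σ ρ : RF n K →ₐ[K] RF n K),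
    dg (fun i => (σ * ρ) (gen n K i)) ≤
      dg (fun i => σ (gen n K i)) * dg (fun i => ρ (gen n K i))) ∧
  (∀ (n : ℕ) (K : Type) [Field K] (σ : RF n K →ₐ[K] RF n K) (a b : ℕ),
    dg (it σ (a + b)) ≤ dg (it σ a) * dg (it σ b)) ∧
  (∀ (n : ℕ) (K L : Type) [Field K] [Field L] [Algebra K L] (σK : RF n K →ₐ[K] RF n K)
    (σL : RF n L →ₐ[L] RF n L), Cmp σK σL → ∀ m, dg (it σL m) ≤ dg (it σK m)) ∧
  (∀ (n : ℕ) (K : Type) [Field K] (σ : RF n K →ₐ[K] RF n K) (F : Fin (n + 1) → Pl n K) (a b : ℕ),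
    Wk (fun i => σ (gen n K i)) F → (∀ i, (F i).totalDegree ≤ a) → ∀ H : Pl n K,
    H.totalDegree ≤ b → ∃ H' : Pl n K, H'.totalDegree ≤ a * b ∧ fr H' = fr (F 0) ^ b * σ (fr H))

/-! ## Values -/

/-- (K8) Values of rational maps at points. -/
def SVal : Prop :=
  (∀ (n : ℕ) (K : Type) [Field K] (σ ρ : RF n K →ₐ[K] RF n K) (x x' x'' : Fin n → K),
    Val σ x x' → Val ρ x' x'' → Val (σ * ρ) x x'') ∧
  (∀ (n : ℕ) (K : Type) [Field K] (σ : RF n K →ₐ[K] RF n K) (z : ℕ → Fin n → K), Flow σ z →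
    ∀ m j : ℕ, Val (σ ^ m) (z j) (z (j + m))) ∧
  (∀ (n : ℕ) (K : Type) [Field K] (f : RM K n) (σ : RF n K →ₐ[K] RF n K) (x x' : Fin n → K),
    Of f σ → f.Next x x' → Val σ x x') ∧
  (∀ (n : ℕ) (K : Type) [Field K] (f : RM K n) (σ : RF n K →ₐ[K] RF n K) (z : ℕ → Fin n → K),
    Of f σ → f.Orb z → Flow σ z) ∧
  (∀ (n : ℕ) (K : Type) [Field K] (ρ : RF n K →ₐ[K] RF n K) (x x' : Fin n → K)
    (F : Fin (n + 1) → Pl n K), Val ρ x x' → Rep (fun i => ρ (gen n K i)) F →
    MvPolynomial.eval x (F 0) ≠ 0 ∧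
    ∀ i : Fin n, MvPolynomial.eval x (F i.succ) = MvPolynomial.eval x (F 0) * x' i) ∧
  (∀ (n : ℕ) (K : Type) [Field K] (ρ : RF n K →ₐ[K] RF n K) (x x' : Fin n → K) (H E N : Pl n K),
    Val ρ x x' → fr N = fr E * ρ (fr H) →
    MvPolynomial.eval x N = MvPolynomial.eval x E * MvPolynomial.eval x' H)

end Pool.Agent.Lib.MP_16285c_agN
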